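import Pool.Agent.W795.TQ.DStm

set_option linter.unusedSectionVars false

open MeasureTheory Set Filter Topology
open scoped InnerProductSpace ENNReal ContDiff NNReal

namespace Pool.Agent.W52.TQ

open H772R2.NS
open Pool.Agent.W795.TQ

section hol
variable {α : Type*} {mα : MeasurableSpace α} {μ : Measure α}

theorem cs_sq {f g : α → ℝ≥0∞} (hf : AEMeasurable f μ) (hg : AEMeasurable g μ) :
    (∫⁻ x, f x * g x ∂μ) ^ 2 ≤ (∫⁻ x, f x ^ 2 ∂μ) * ∫⁻ x, g x ^ 2 ∂μ := by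
  have h := ENNReal.lintegral_mul_le_Lp_mul_Lq μ Real.HolderConjugate.two_two hf hg
  have h2 : (∫⁻ x, f x * g x ∂μ) ^ 2 ≤
      ((∫⁻ x, f x ^ (2 : ℝ) ∂μ) ^ ((1 : ℝ) / 2) * (∫⁻ x, g x ^ (2 : ℝ) ∂μ) ^ ((1 : ℝ) / 2)) ^ 2 :=
    pow_le_pow_left' h 2
  refine h2.trans (le_of_eq ?_)
  rw [mul_pow, ← ENNReal.rpow_natCast, ← ENNReal.rpow_natCast, ← ENNReal.rpow_mul,
    ← ENNReal.rpow_mul]
  norm_num

theorem holder_cube {a b : α → ℝ≥0∞} (ha : AEMeasurable a μ) (hb : AEMeasurable b μ) :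
    (∫⁻ x, a x ^ 4 * b x ^ 2 ∂μ) ^ 3 ≤ (∫⁻ x, a x ^ 6 ∂μ) ^ 2 * ∫⁻ x, b x ^ 6 ∂μ := by
  have hpq : Real.HolderConjugate (3 / 2) 3 := by
    rw [Real.holderConjugate_iff]
    norm_num
  have h := ENNReal.lintegral_mul_le_Lp_mul_Lq μ hpq (ha.pow_const 4) (hb.pow_const 2)
  have h2 : (∫⁻ x, a x ^ 4 * b x ^ 2 ∂μ) ^ 3 ≤
      ((∫⁻ x, (a x ^ 4) ^ (3 / 2 : ℝ) ∂μ) ^ ((1 : ℝ) / (3 / 2)) *
        (∫⁻ x, (b x ^ 2) ^ (3 : ℝ) ∂μ) ^ ((1 : ℝ) / 3)) ^ 3 :=
    pow_le_pow_left' h 3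
  refine h2.trans (le_of_eq ?_)
  have e1 : ∀ x, (a x ^ 4) ^ (3 / 2 : ℝ) = a x ^ 6 := by
    intro x
    rw [← ENNReal.rpow_natCast, ← ENNReal.rpow_natCast, ← ENNReal.rpow_mul]
    norm_num
  have e2 : ∀ x, (b x ^ 2) ^ (3 : ℝ) = b x ^ 6 := by
    intro x
    rw [← ENNReal.rpow_natCast, ← ENNReal.rpow_natCast, ← ENNReal.rpow_mul]
    norm_num
  simp only [e1, e2]
  rw [mul_pow, ← ENNReal.rpow_natCast, ← ENNReal.rpow_natCast, ← ENNReal.rpow_natCast,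
    ← ENNReal.rpow_mul, ← ENNReal.rpow_mul]
  norm_num

/-- the trilinear Hölder inequality, in twelfth powers -/
theorem tri_holder {g a b : α → ℝ≥0∞} (hg : AEMeasurable g μ) (ha : AEMeasurable a μ)
    (hb : AEMeasurable b μ) :
    (∫⁻ x, g x * (a x * b x) ∂μ) ^ 12 ≤
      (∫⁻ x, g x ^ 2 ∂μ) ^ 6 * ((∫⁻ x, b x ^ 2 ∂μ) ^ 3 *
        ((∫⁻ x, a x ^ 6 ∂μ) ^ 2 * ∫⁻ x, b x ^ 6 ∂μ)) := by
  have h1 := cs_sq hg (ha.mul hb)
  have h2 : (∫⁻ x, (a x * b x) ^ 2 ∂μ) ^ 2 ≤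
      (∫⁻ x, a x ^ 4 * b x ^ 2 ∂μ) * ∫⁻ x, b x ^ 2 ∂μ := by
    have h3 := cs_sq (μ := μ) (f := fun x => a x ^ 2 * b x) (g := b) ((ha.pow_const 2).mul hb) hb
    have e1 : (fun x => (a x * b x) ^ 2) = fun x => (a x ^ 2 * b x) * b x := by
      funext x; ring
    have e2 : (fun x => (a x ^ 2 * b x) ^ 2) = fun x => a x ^ 4 * b x ^ 2 := by
      funext x; ring
    rw [e1]
    rw [e2] at h3
    exact h3
  have h4 := holder_cube ha hb
  set X := ∫⁻ x, g x * (a x * b x) ∂μ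
  set G := ∫⁻ x, g x ^ 2 ∂μ
  set P := ∫⁻ x, (a x * b x) ^ 2 ∂μ
  set Q := ∫⁻ x, a x ^ 4 * b x ^ 2 ∂μ
  set B := ∫⁻ x, b x ^ 2 ∂μ
  set A6 := ∫⁻ x, a x ^ 6 ∂μ
  set B6 := ∫⁻ x, b x ^ 6 ∂μ
  have h1' : X ^ 2 ≤ G * P := h1
  calc X ^ 12 = (X ^ 2) ^ 6 := by ring
    _ ≤ (G * P) ^ 6 := pow_le_pow_left' h1' 6
    _ = G ^ 6 * (P ^ 2) ^ 3 := by ring
    _ ≤ G ^ 6 * (Q * B) ^ 3 := mul_le_mul' le_rfl (pow_le_pow_left' h2 3)
    _ = G ^ 6 * (B ^ 3 * Q ^ 3) := by ring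
    _ ≤ G ^ 6 * (B ^ 3 * (A6 ^ 2 * B6)) := by gcongr

theorem eLp2_sq {Y : Type*} [NormedAddCommGroup Y] (v : α → Y) :
    ∫⁻ x, ‖v x‖ₑ ^ 2 ∂μ = (eLpNorm v 2 μ) ^ 2 := by
  rw [eLpNorm_eq_lintegral_rpow_enorm_toReal (by norm_num) (by norm_num)]
  rw [← ENNReal.rpow_natCast, ← ENNReal.rpow_mul]
  norm_num

theorem eLp6_six {Y : Type*} [NormedAddCommGroup Y] (v : α → Y) :
    ∫⁻ x, ‖v x‖ₑ ^ 6 ∂μ = (eLpNorm v 6 μ) ^ 6 := by
  rw [eLpNorm_eq_lintegral_rpow_enorm_toReal (by norm_num) (by norm_num)]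
  rw [← ENNReal.rpow_natCast, ← ENNReal.rpow_mul]
  norm_num

end hol

/-- the tensor product of two vectors -/
noncomputable def tns (x y : E3) : M3 := WithLp.toLp 2 fun p => x p.1 * y p.2

theorem norm_tns (x y : E3) : ‖tns x y‖ = ‖x‖ * ‖y‖ := by
  have h : ‖tns x y‖ ^ 2 = (‖x‖ * ‖y‖) ^ 2 := by
    rw [norm_sq_M3, mul_pow, norm_sq_E3, norm_sq_E3, Finset.sum_mul_sum]
    simp only [tns, mul_pow]
  exact (pow_left_inj₀ (norm_nonneg _) (by positivity) (by norm_num)).mp h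

/-- integration by parts -/
theorem ibp {Ω : Set E3} {φ ψ : E3 → E3} (h : IsTest Ω φ) (k : IsTest Ω ψ) :
    ∫ x, ⟪tens (φ x), jac ψ x⟫_ℝ = - ∫ x, ⟪jac φ x, tns (ψ x) (φ x)⟫_ℝ := by
  have hφc : ∀ j, Continuous (fun x => φ x j) := fun j => (contDiff_coord h.smooth j).continuous
  have hψc : ∀ j, Continuous (fun x => ψ x j) := fun j => (contDiff_coord k.smooth j).continuous
  have hdφ : ∀ i j, Continuous (fun x => fderiv ℝ (fun y => φ y i) x (ev j)) := fun i j =>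
    ((contDiff_coord h.smooth i).continuous_fderiv (by simp)).clm_apply continuous_const
  have hdψ : ∀ i j, Continuous (fun x => fderiv ℝ (fun y => ψ y i) x (ev j)) := fun i j =>
    ((contDiff_coord k.smooth i).continuous_fderiv (by simp)).clm_apply continuous_const
  have hprod : ∀ i j, ContDiff ℝ ∞ (fun x => φ x i * φ x j) := fun i j =>
    (contDiff_coord h.smooth i).mul (contDiff_coord h.smooth j)
  have hprodc : ∀ i j, HasCompactSupport (fun x => φ x i * φ x j) := fun i j =>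
    (hasCompactSupport_coord h.compact i).mul_right
  have hdprod : ∀ i j, Continuous (fun x => fderiv ℝ (fun x => φ x i * φ x j) x (ev j)) :=
    fun i j => ((hprod i j).continuous_fderiv (by simp)).clm_apply continuous_const
  have hd : ∀ i j x, fderiv ℝ (fun x => φ x i * φ x j) x (ev j) =
      φ x i * jac φ x (j, j) + φ x j * jac φ x (i, j) := by
    intro i j x
    have h1 : DifferentiableAt ℝ (fun x => φ x i) x :=
      ((contDiff_coord h.smooth i).differentiable (by simp)) x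
    have h2 : DifferentiableAt ℝ (fun x => φ x j) x :=
      ((contDiff_coord h.smooth j).differentiable (by simp)) x
    rw [fderiv_fun_mul h1 h2]
    simp only [ContinuousLinearMap.add_apply, ContinuousLinearMap.smul_apply, smul_eq_mul]
    rw [fderiv_coord h.smooth, fderiv_coord h.smooth, jac_apply, jac_apply]
  have hibp : ∀ i j, ∫ x, (φ x i * φ x j) * fderiv ℝ (fun y => ψ y i) x (ev j)
      = - ∫ x, fderiv ℝ (fun x => φ x i * φ x j) x (ev j) * ψ x i := by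
    intro i j
    apply integral_mul_fderiv_eq_neg_fderiv_mul_of_integrable
    · exact ((hdprod i j).mul (hψc i)).integrable_of_hasCompactSupport
        ((hasCompactSupport_coord k.compact i).mul_left)
    · exact (((hprod i j).continuous).mul (hdψ i j)).integrable_of_hasCompactSupport
        ((hprodc i j).mul_right)
    · exact (((hprod i j).continuous).mul (hψc i)).integrable_of_hasCompactSupport
        ((hprodc i j).mul_right)
    · intro x _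
      exact ((hprod i j).differentiable (by simp)) x
    · intro x _
      exact ((contDiff_coord k.smooth i).differentiable (by simp)) x
  have hL : ∀ x, ⟪tens (φ x), jac ψ x⟫_ℝ =
      ∑ i, ∑ j, (φ x i * φ x j) * fderiv ℝ (fun y => ψ y i) x (ev j) := by
    intro x
    rw [inner_M3]
    refine Finset.sum_congr rfl fun i _ => Finset.sum_congr rfl fun j _ => ?_
    rw [fderiv_coord k.smooth]
    rfl
  have hR : ∀ x, ⟪jac φ x, tns (ψ x) (φ x)⟫_ℝ =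
      ∑ i, ∑ j, fderiv ℝ (fun x => φ x i * φ x j) x (ev j) * ψ x i := by
    intro x
    rw [inner_M3]
    refine Finset.sum_congr rfl fun i _ => ?_
    simp only [hd]
    have hz : ∑ j, φ x i * jac φ x (j, j) * ψ x i = 0 := by
      rw [← Finset.sum_mul, ← Finset.mul_sum, h.divfree x, mul_zero, zero_mul]
    have e1 : ∑ j, (φ x i * jac φ x (j, j) + φ x j * jac φ x (i, j)) * ψ x i =
        ∑ j, φ x i * jac φ x (j, j) * ψ x i + ∑ j, φ x j * jac φ x (i, j) * ψ x i := by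
      rw [← Finset.sum_add_distrib]
      exact Finset.sum_congr rfl fun j _ => by ring
    rw [e1, hz, zero_add]
    refine Finset.sum_congr rfl fun j _ => ?_
    simp only [tns]
    ring
  have hint1 : ∀ i ∈ Finset.univ, ∀ j ∈ Finset.univ,
      Integrable (fun x => (φ x i * φ x j) * fderiv ℝ (fun y => ψ y i) x (ev j)) :=
    fun i _ j _ => (((hprod i j).continuous).mul (hdψ i j)).integrable_of_hasCompactSupport
        ((hprodc i j).mul_right)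
  have hint2 : ∀ i ∈ Finset.univ, ∀ j ∈ Finset.univ,
      Integrable (fun x => fderiv ℝ (fun x => φ x i * φ x j) x (ev j) * ψ x i) :=
    fun i _ j _ => ((hdprod i j).mul (hψc i)).integrable_of_hasCompactSupport
        ((hasCompactSupport_coord k.compact i).mul_left)
  simp_rw [hL, hR]
  rw [integral_finsetSum _ (fun i hi => integrable_finsetSum _ (hint1 i hi)),
    integral_finsetSum _ (fun i hi => integrable_finsetSum _ (hint2 i hi)),
    ← Finset.sum_neg_distrib]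
  refine Finset.sum_congr rfl fun i hi => ?_
  rw [integral_finsetSum _ (hint1 i hi), integral_finsetSum _ (hint2 i hi),
    ← Finset.sum_neg_distrib]
  exact Finset.sum_congr rfl fun j _ => hibp i j

theorem six_le {Ω : Set E3} (hΩ : MeasurableSet Ω) {φ : E3 → E3} (h : IsTest Ω φ) :
    eLpNorm φ 6 (volume.restrict Ω) ≤ CS * eLpNorm (jac φ) 2 (volume.restrict Ω) := by
  calc eLpNorm φ 6 (volume.restrict Ω) ≤ eLpNorm φ 6 (volume : Measure E3) :=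
        eLpNorm_mono_measure _ Measure.restrict_le_self
    _ ≤ CS * eLpNorm (fderiv ℝ φ) 2 (volume : Measure E3) :=
        CS_spec φ (h.smooth.of_le (by simp)) h.compact
    _ ≤ CS * eLpNorm (jac φ) 2 (volume : Measure E3) := by
        gcongr
        exact eLpNorm_mono (fun x => norm_fderiv_le_jac x)
    _ = CS * eLpNorm (jac φ) 2 (volume.restrict Ω) := by
        rw [h.eLpNorm_jac_restrict hΩ]

theorem jac_off {Ω : Set E3} {φ : E3 → E3} (h : IsTest Ω φ) (x : E3) (hx : x ∉ Ω) :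
    jac φ x = 0 := by
  apply image_eq_zero_of_notMem_tsupport
  intro hc
  exact hx (h.supp (tsupport_jac_subset hc))

/-- the bound for test fields, in `ℝ≥0∞` -/
theorem test_bound {Ω : Set E3} (hΩ : MeasurableSet Ω) {φ ψ : E3 → E3} (h : IsTest Ω φ)
    (k : IsTest Ω ψ) :
    ‖∫ x in Ω, ⟪tens (φ x), jac ψ x⟫_ℝ‖ₑ ^ 12 ≤
      ((CS : ℝ≥0∞) ^ 3 * (eLpNorm (jac φ) 2 (volume.restrict Ω) ^ 4 *
        (eLpNorm ψ 2 (volume.restrict Ω) * eLpNorm (jac ψ) 2 (volume.restrict Ω)))) ^ 6 := by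
  have e1 : ∫ x in Ω, ⟪tens (φ x), jac ψ x⟫_ℝ = ∫ x, ⟪tens (φ x), jac ψ x⟫_ℝ := by
    apply setIntegral_eq_integral_of_forall_compl_eq_zero
    intro x hx
    rw [jac_off k x hx, inner_zero_right]
  have e2 : ∫ x in Ω, ⟪jac φ x, tns (ψ x) (φ x)⟫_ℝ = ∫ x, ⟪jac φ x, tns (ψ x) (φ x)⟫_ℝ := by
    apply setIntegral_eq_integral_of_forall_compl_eq_zero
    intro x hx
    rw [jac_off h x hx, inner_zero_left]
  rw [e1, ibp h k, enorm_neg, ← e2]
  have h1 : ‖∫ x in Ω, ⟪jac φ x, tns (ψ x) (φ x)⟫_ℝ‖ₑ ≤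
      ∫⁻ x in Ω, ‖jac φ x‖ₑ * (‖φ x‖ₑ * ‖ψ x‖ₑ) := by
    refine (enorm_integral_le_lintegral_enorm _).trans (lintegral_mono fun x => ?_)
    have h2 : ‖⟪jac φ x, tns (ψ x) (φ x)⟫_ℝ‖ ≤ ‖jac φ x‖ * (‖φ x‖ * ‖ψ x‖) := by
      refine (norm_inner_le_norm _ _).trans ?_
      rw [norm_tns, mul_comm ‖ψ x‖]
    calc ‖⟪jac φ x, tns (ψ x) (φ x)⟫_ℝ‖ₑ = ENNReal.ofReal ‖⟪jac φ x, tns (ψ x) (φ x)⟫_ℝ‖ :=
          (ofReal_norm _).symm
      _ ≤ ENNReal.ofReal (‖jac φ x‖ * (‖φ x‖ * ‖ψ x‖)) := ENNReal.ofReal_le_ofReal h2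
      _ = ‖jac φ x‖ₑ * (‖φ x‖ₑ * ‖ψ x‖ₑ) := by
          rw [ENNReal.ofReal_mul (norm_nonneg _), ENNReal.ofReal_mul (norm_nonneg _),
            ofReal_norm, ofReal_norm, ofReal_norm]
  have hm1 : AEMeasurable (fun x => ‖jac φ x‖ₑ) (volume.restrict Ω) :=
    (continuous_jac h.smooth).aestronglyMeasurable.enorm
  have hm2 : AEMeasurable (fun x => ‖φ x‖ₑ) (volume.restrict Ω) :=
    h.smooth.continuous.aestronglyMeasurable.enorm
  have hm3 : AEMeasurable (fun x => ‖ψ x‖ₑ) (volume.restrict Ω) :=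
    k.smooth.continuous.aestronglyMeasurable.enorm
  refine (pow_le_pow_left' h1 12).trans ((tri_holder hm1 hm2 hm3).trans ?_)
  rw [eLp2_sq, eLp2_sq, eLp6_six, eLp6_six]
  have s1 := six_le hΩ h
  have s2 := six_le hΩ k
  set D := eLpNorm (jac φ) 2 (volume.restrict Ω)
  set Dp := eLpNorm (jac ψ) 2 (volume.restrict Ω)
  set S := eLpNorm ψ 2 (volume.restrict Ω)
  calc (D ^ 2) ^ 6 * ((S ^ 2) ^ 3 * ((eLpNorm φ 6 (volume.restrict Ω) ^ 6) ^ 2 *
        eLpNorm ψ 6 (volume.restrict Ω) ^ 6))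
      ≤ (D ^ 2) ^ 6 * ((S ^ 2) ^ 3 * (((CS * D) ^ 6) ^ 2 * (CS * Dp) ^ 6)) := by gcongr
    _ = _ := by ring

theorem graphW_le {Ω : Set E3} (F G : L2V Ω × L2M Ω → ℝ)
    (hF : ContinuousOn F (graphW Ω : Set (L2V Ω × L2M Ω)))
    (hG : ContinuousOn G (graphW Ω : Set (L2V Ω × L2M Ω))) (h0 : ∀ p ∈ preW Ω, F p ≤ G p)
    {p : L2V Ω × L2M Ω} (hp : p ∈ graphW Ω) : F p ≤ G p := by
  have h := graphW_induction (fun p => max (F p - G p) 0) ((hF.sub hG).sup continuousOn_const)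
    (fun q hq => max_eq_right (by have := h0 q hq; linarith)) hp
  have h1 : F p - G p ≤ max (F p - G p) 0 := le_max_left _ _
  have h2 : max (F p - G p) 0 = 0 := h
  linarith

theorem proof_univ : S_univ := by
  set c : ℝ := Real.sqrt ((CS : ℝ) ^ 3) + 1 with hc
  have hs0 : 0 ≤ Real.sqrt ((CS : ℝ) ^ 3) := Real.sqrt_nonneg _
  have hc0 : 0 < c := by positivity
  refine ⟨c, hc0, ?_⟩
  intro Ω hΩo
  have hΩ := hΩo.measurableSet
  refine ⟨hc0, ?_, ?_⟩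
  · intro p hp
    have h1 := norm_tensL_sq_le hΩ hp
    have h2 : ‖tensL p.1‖ ≤ Real.sqrt ((CS : ℝ) ^ 3 * (‖p.1‖ * ‖p.2‖ ^ 3)) :=
      Real.le_sqrt_of_sq_le h1
    have h3 : Real.sqrt (‖p.2‖ ^ 3) = Real.sqrt ‖p.2‖ ^ 3 := by
      rw [Real.sqrt_eq_iff_mul_self_eq (by positivity) (by positivity)]
      have : Real.sqrt ‖p.2‖ ^ 2 = ‖p.2‖ := Real.sq_sqrt (norm_nonneg _)
      symm
      calc Real.sqrt ‖p.2‖ ^ 3 * Real.sqrt ‖p.2‖ ^ 3 = (Real.sqrt ‖p.2‖ ^ 2) ^ 3 := by ring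
        _ = ‖p.2‖ ^ 3 := by rw [this]
    rw [Real.sqrt_mul (by positivity), Real.sqrt_mul (norm_nonneg _), h3] at h2
    refine h2.trans (mul_le_mul_of_nonneg_right (by rw [hc]; linarith) (by positivity))
  · -- test fields first
    have htest : ∀ p ∈ preW Ω, ∀ q ∈ preW Ω,
        |⟪tensL p.1, q.2⟫_ℝ| ≤ c * (‖p.2‖ ^ 2 * (Real.sqrt ‖q.1‖ * Real.sqrt ‖q.2‖)) := by
      intro p hp q hq
      have hpW : p ∈ graphW Ω := Submodule.le_topologicalClosure _ hp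
      obtain ⟨φ, h1, h2, h3⟩ := hp
      obtain ⟨ψ, k1, k2, k3⟩ := hq
      have e1 : ⟪tensL p.1, q.2⟫_ℝ = ∫ x in Ω, ⟪tens (φ x), jac ψ x⟫_ℝ := by
        rw [L2.inner_def]
        apply integral_congr_ae
        filter_upwards [tensL_coe hΩ hpW, h2, k3] with x a b c
        rw [a, b, c]
      have b1 := test_bound hΩ h1 k1
      rw [← e1] at b1
      have n1 : eLpNorm (jac φ) 2 (volume.restrict Ω) = ‖p.2‖ₑ := by
        rw [Lp.enorm_def, eLpNorm_congr_ae h3]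
      have n2 : eLpNorm (jac ψ) 2 (volume.restrict Ω) = ‖q.2‖ₑ := by
        rw [Lp.enorm_def, eLpNorm_congr_ae k3]
      have n3 : eLpNorm ψ 2 (volume.restrict Ω) = ‖q.1‖ₑ := by
        rw [Lp.enorm_def, eLpNorm_congr_ae k2]
      rw [n1, n2, n3] at b1
      have b2 := ENNReal.toReal_mono (by
        refine (ENNReal.pow_lt_top ?_).ne
        refine ENNReal.mul_lt_top (by simp) (ENNReal.mul_lt_top (ENNReal.pow_lt_top enorm_lt_top)
          (ENNReal.mul_lt_top enorm_lt_top enorm_lt_top))) b1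
      simp only [ENNReal.toReal_mul, ENNReal.toReal_pow, toReal_enorm, ENNReal.coe_toReal,
        Real.norm_eq_abs] at b2
      have b3 : |⟪tensL p.1, q.2⟫_ℝ| ^ 2 ≤ (CS : ℝ) ^ 3 * (‖p.2‖ ^ 4 * (‖q.1‖ * ‖q.2‖)) := by
        have b4 : (|⟪tensL p.1, q.2⟫_ℝ| ^ 2) ^ 6 ≤
            ((CS : ℝ) ^ 3 * (‖p.2‖ ^ 4 * (‖q.1‖ * ‖q.2‖))) ^ 6 := by
          rw [← pow_mul]
          exact b2
        exact (pow_le_pow_iff_left₀ (by positivity) (by positivity) (by norm_num)).mp b4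
      have b5 : |⟪tensL p.1, q.2⟫_ℝ| ≤
          Real.sqrt ((CS : ℝ) ^ 3 * (‖p.2‖ ^ 4 * (‖q.1‖ * ‖q.2‖))) :=
        Real.le_sqrt_of_sq_le b3
      have b6 : Real.sqrt (‖p.2‖ ^ 4) = ‖p.2‖ ^ 2 := by
        rw [show ‖p.2‖ ^ 4 = (‖p.2‖ ^ 2) ^ 2 by ring, Real.sqrt_sq (by positivity)]
      rw [Real.sqrt_mul (by positivity), Real.sqrt_mul (by positivity), b6,
        Real.sqrt_mul (norm_nonneg _)] at b5
      exact b5.trans (mul_le_mul_of_nonneg_right (by rw [hc]; linarith) (by positivity))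
    intro p hp q hq
    -- extend in the second variable, then in the first
    have hq' : ∀ p ∈ preW Ω, |⟪tensL p.1, q.2⟫_ℝ| ≤
        c * (‖p.2‖ ^ 2 * (Real.sqrt ‖q.1‖ * Real.sqrt ‖q.2‖)) := by
      intro p hp
      exact graphW_le (fun q => |⟪tensL p.1, q.2⟫_ℝ|)
        (fun q => c * (‖p.2‖ ^ 2 * (Real.sqrt ‖q.1‖ * Real.sqrt ‖q.2‖)))
        (by
          have : Continuous fun q : L2V Ω × L2M Ω => |⟪tensL p.1, q.2⟫_ℝ| := by fun_prop
          exact this.continuousOn)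
        (by
          have : Continuous fun q : L2V Ω × L2M Ω =>
              c * (‖p.2‖ ^ 2 * (Real.sqrt ‖q.1‖ * Real.sqrt ‖q.2‖)) := by fun_prop
          exact this.continuousOn) (htest p hp) hq
    exact graphW_le (fun p => |⟪tensL p.1, q.2⟫_ℝ|)
        (fun p => c * (‖p.2‖ ^ 2 * (Real.sqrt ‖q.1‖ * Real.sqrt ‖q.2‖)))
        (((tensL_continuousOn hΩ).inner continuousOn_const).abs)
        (by
          have : Continuous fun p : L2V Ω × L2M Ω =>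
              c * (‖p.2‖ ^ 2 * (Real.sqrt ‖q.1‖ * Real.sqrt ‖q.2‖)) := by fun_prop
          exact this.continuousOn) hq' hp

end Pool.Agent.W52.TQ
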