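import Pool.Agent.W795.TQ.DStm
import Pool.Agent.H772R2.NSR.Abs

set_option linter.unusedSectionVars false

open MeasureTheory Set Filter Topology Metric
open scoped InnerProductSpace NNReal

namespace Pool.Agent.W52.TQ

open H772R2.NSR
open Pool.Agent.W795.TQ

/-- the first time at which a continuous function reaches the level `N` -/
theorem first_time {T N : ℝ} (hT : 0 < T) {f : ℝ → ℝ} (hf : ContinuousOn f (Icc 0 T))
    (h0 : f 0 < N) : ∃ τ : ℝ, 0 < τ ∧ τ ≤ T ∧ (∀ t ∈ Icc 0 τ, f t ≤ N) ∧ (τ = T ∨ N ≤ f τ) := by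
  by_cases h : ∀ t ∈ Icc 0 T, f t < N
  · exact ⟨T, hT, le_rfl, fun t ht => (h t ht).le, Or.inl rfl⟩
  · push Not at h
    obtain ⟨t1, ht1, hN1⟩ := h
    set A : Set ℝ := Icc 0 T ∩ f ⁻¹' (Ici N) with hA
    have hcl : IsClosed A := hf.preimage_isClosed_of_isClosed isClosed_Icc isClosed_Ici
    have hcomp : IsCompact A := isCompact_Icc.of_isClosed_subset hcl inter_subset_left
    have hne : A.Nonempty := ⟨t1, ht1, hN1⟩
    set τ := sInf A with hτ
    have hτA : τ ∈ A := hcomp.sInf_mem hne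
    have hmin : ∀ t ∈ A, τ ≤ t := fun t ht => csInf_le hcomp.bddBelow ht
    have hτ0 : 0 < τ := by
      rcases hτA.1.1.lt_or_eq with h | h
      · exact h
      · exfalso
        have := hτA.2
        rw [mem_preimage, ← h] at this
        exact absurd this (not_le.2 h0)
    refine ⟨τ, hτ0, hτA.1.2, ?_, Or.inr hτA.2⟩
    intro t ht
    by_contra hc
    push Not at hc
    have htT : t ≤ T := ht.2.trans hτA.1.2
    have hsub : Icc 0 t ⊆ Icc 0 T := Icc_subset_Icc_right htT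
    have hiv := intermediate_value_Icc ht.1 (hf.mono hsub)
    obtain ⟨s, hs, hsN⟩ := hiv ⟨h0.le, hc.le⟩
    have hsA : s ∈ A := ⟨hsub hs, by rw [mem_preimage, hsN]; exact self_mem_Ici⟩
    have h1 := hmin s hsA
    have h2 : s = t := le_antisymm hs.2 (ht.2.trans h1)
    rw [h2] at hsN
    linarith

theorem proof_loc : S_loc := by
  intro H K _ _ _ _ _ _ W m C ν T F F1 x0 g0 z0 N Fr hcomp hν hT hFH h0 hc hN
  have h0T : (0 : ℝ) ∈ Icc 0 T := ⟨le_rfl, hT.le⟩
  have hN0 : 0 < N := lt_of_le_of_lt (norm_nonneg _) hN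
  have hF1 := hFH.memLp
  have hF := hFH.prim
  have hFc := prim_cont hF1 hF
  have V := visc_muf (ν := ν) one_pos hN0 hν
  have hμ0 : muf 1 N ‖z0‖ = 0 := muf_zero hN.le
  obtain ⟨u, u', z, c1, c2, hu0, Sl⟩ := exists_sln Fr V hν hT hFc
    (Φ := ∫ s in (0 : ℝ)..T, ‖F1 s‖ ^ 2)
    (intervalIntegral.integral_nonneg hT.le (fun s _ => by positivity))
    (prim_shift hF1 hF) hcomp h0 (g0 := g0) (by
      intro p hp
      rw [hμ0, add_zero]
      exact hc p hp)
  obtain ⟨u1, z1, k1, k2, k3, k4, k5⟩ := Sl.derivs Fr.closedW hT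
  have hz0 : z 0 = z0 := grad_unique Fr (by
    have := Sl.mem 0 h0T
    rwa [hu0] at this) h0
  obtain ⟨τ, hτ0, hτT, hle, hor⟩ := first_time hT Sl.zc.norm (by
    show ‖z 0‖ < N
    rw [hz0]
    exact hN)
  have hsub : Icc 0 τ ⊆ Icc 0 T := Icc_subset_Icc_right hτT
  have hsubo : Ioc 0 τ ⊆ Ioc 0 T := Ioc_subset_Ioc_right hτT
  have hmono : volume.restrict (Ioc 0 τ) ≤ volume.restrict (Ioc 0 T) :=
    Measure.restrict_mono hsubo le_rfl
  have hmu : ∀ t ∈ Icc 0 τ, muf 1 N ‖z t‖ = 0 := fun t ht => muf_zero (hle t ht)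
  refine ⟨τ, u, u1, z, z1, hτ0, hτT, ?_, hu0, hor⟩
  constructor
  · exact fun t ht => Sl.mem t (hsub ht)
  · exact (ae_mono hmono) (k5.mono fun s hs => hs.1)
  · exact ⟨_, (ae_mono hmono) (k5.mono fun s hs => hs.2)⟩
  · exact k1.mono_measure hmono
  · exact k2.mono_measure hmono
  · exact fun a b ha hab hb => k3 a b ha hab (hb.trans hτT)
  · exact fun a b ha hab hb => k4 a b ha hab (hb.trans hτT)
  · intro p hp t ht
    rw [Sl.weak p hp 0 t le_rfl ht.1 (ht.2.trans hτT)]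
    refine intervalIntegral.integral_congr (fun s hs => ?_)
    rw [uIcc_of_le ht.1] at hs
    show ⟪F s - (ν + muf 1 N ‖z s‖) • z s + m (u s), p.2⟫_ℝ = _
    rw [hmu s ⟨hs.1, hs.2.trans ht.2⟩, add_zero]
  · intro t ht
    rw [← Sl.energy t (hsub ht), ← intervalIntegral.integral_const_mul]
    congr 1
    refine intervalIntegral.integral_congr (fun s hs => ?_)
    rw [uIcc_of_le ht.1] at hs
    show _ = (ν + muf 1 N ‖z s‖) * ‖z s‖ ^ 2
    rw [hmu s ⟨hs.1, hs.2.trans ht.2⟩, add_zero]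

end Pool.Agent.W52.TQ
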